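import Pool.Agent.H360R2.RG.Stubs
import Pool.Agent.H382P.Mom2

/-! # r-gaps, task MKM: all moments of `Mk` -/

open Complex Filter Topology Set MeasureTheory

namespace RGap

open SG (hh nn dd dl ord NZ)
open SP (RHs ZZ mu wt Mk Par Eb PS chi qq tt)

theorem MKM_proof : MKM := by
  intro hRH κ hκ hκ1 j
  obtain ⟨C2, T2, hC2, hT2, h2⟩ := SP.exp_main hRH κ 1 (j + 1) hκ hκ1 one_pos
    (by positivity)
  refine ⟨C2, max T2 100, hC2, hT2.trans (le_max_left _ _), ?_⟩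
  intro T hT t0
  simp only [max_le_iff] at hT
  obtain ⟨hTT2, hT100⟩ := hT
  obtain ⟨hL4, hLT⟩ := SP.Mom2.log_bounds T hT100
  have hV : T + 2 * Real.log T ≤ 2 * T - 2 * Real.log T := by linarith
  have hm := h2 T hTT2 t0 (T + 2 * Real.log T) (2 * T - 2 * Real.log T) hV (by linarith)
    (by linarith)
  have hpt : ∀ t ∈ Set.Icc (T + 2 * Real.log T) (2 * T - 2 * Real.log T),
      wt t0 (dd κ T) t * (1 + Mk T 1 t) ^ j ≤
      wt t0 (dd κ T) t * Real.exp ((j + 1) * (‖SP.Ya T 1 t‖ + Mk T 1 t)) := by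
    intro t ht
    have hM0 : 0 ≤ Mk T 1 t := SP.DpB_Mk_nonneg _ _ _
    have hw := SP.Mom2.wt_nonneg t0 (dd κ T) t
    apply mul_le_mul_of_nonneg_left _ hw
    calc (1 + Mk T 1 t) ^ j ≤ (Real.exp (Mk T 1 t)) ^ j := by
          gcongr
          linarith [Real.add_one_le_exp (Mk T 1 t)]
      _ = Real.exp ((j : ℕ) * Mk T 1 t) := by rw [← Real.exp_nat_mul]
      _ ≤ Real.exp ((j + 1) * (‖SP.Ya T 1 t‖ + Mk T 1 t)) := by
          apply Real.exp_le_exp.2
          have e1 := norm_nonneg (SP.Ya T 1 t)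
          have e2 : (0 : ℝ) ≤ (j + 1) * ‖SP.Ya T 1 t‖ := by positivity
          nlinarith
  have hcont : Continuous (fun t => wt t0 (dd κ T) t *
      Real.exp ((j + 1) * (‖SP.Ya T 1 t‖ + Mk T 1 t))) :=
    SP.Mom2.main_cont T κ 1 (j + 1) (by linarith) one_pos t0
  have hmono := SP.Mom2.int_mono (fun t => wt t0 (dd κ T) t * (1 + Mk T 1 t) ^ j) _ _ _ hV
    (fun t _ => mul_nonneg (SP.Mom2.wt_nonneg _ _ _)
      (by have := SP.DpB_Mk_nonneg T 1 t; positivity)) hpt hcont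
  exact hmono.trans hm

end RGap
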