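import Pool.Agent.H360R2.RG.Stubs
import Pool.Agent.H403R2.LGLocalA
import Pool.Agent.H403R2.LGLocalB
import Pool.Agent.H503R2.LG.Ker

/-! # r-gaps, tasks ZLOW and NZMK: short windows and the smoothed counting functions -/

open Complex Filter Topology Set MeasureTheory

namespace RGap

open SG (hh nn dd dl ord NZ zmult ZS)
open SP (RHs ZZ mu wt Mk Par Eb PS chi qq tt)
open LG (gK gh Zs bk lk fam prs nA yp ae EE Cn QT tm sm sm0 IsQ SF SM)

namespace ZLowAux

/-- number of zeros in a short window as a sum over the zeros in `(T, 2T]` -/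
theorem NN_eq {T t ρ : ℝ} (hT : 1 ≤ T) (hρ : 0 < ρ) (h1 : T ≤ t - ρ) (h2 : t + ρ ≤ 2 * T) :
    NN ρ t = ∑ s ∈ (SP.ManyAux.ZZ_finite T hT).toFinset.filter
      (fun s => t - ρ < s.im ∧ s.im ≤ t + ρ), (mu s : ℝ) := by
  classical
  have hdisj : Disjoint (SG.ZS_finite (t - ρ)).toFinset
      ((SP.ManyAux.ZZ_finite T hT).toFinset.filter
        (fun s => t - ρ < s.im ∧ s.im ≤ t + ρ)) := by
    rw [Finset.disjoint_left]
    intro s hs hs'
    rw [Set.Finite.mem_toFinset] at hs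
    rw [Finset.mem_filter] at hs'
    have := hs.2.2.2.2
    linarith [hs'.2.1]
  have hun : (SG.ZS_finite (t + ρ)).toFinset = (SG.ZS_finite (t - ρ)).toFinset ∪
      ((SP.ManyAux.ZZ_finite T hT).toFinset.filter
        (fun s => t - ρ < s.im ∧ s.im ≤ t + ρ)) := by
    ext s
    rw [Finset.mem_union, Finset.mem_filter, Set.Finite.mem_toFinset, Set.Finite.mem_toFinset,
      Set.Finite.mem_toFinset]
    constructor
    · rintro ⟨a1, a2, a3, a4, a5⟩
      by_cases h : s.im ≤ t - ρ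
      · exact Or.inl ⟨a1, a2, a3, a4, h⟩
      · push Not at h
        exact Or.inr ⟨⟨a2, a3, by linarith, by linarith, a1⟩, h, a5⟩
    · rintro (⟨a1, a2, a3, a4, a5⟩ | ⟨⟨a1, a2, a3, a4, a5⟩, h, h'⟩)
      · exact ⟨a1, a2, a3, a4, by linarith⟩
      · exact ⟨a5, a1, a2, by linarith, h'⟩
  unfold NN
  rw [SG.NZ_eq, SG.NZ_eq, hun, Finset.sum_union hdisj]
  push_cast
  rw [add_sub_cancel_left]
  rfl

theorem window_log {T t ρ R : ℝ} (hL : 1 ≤ Real.log T) (hR : R ≤ Real.log T)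
    (hρ : ρ = R / Real.log T) (h1 : T + Real.log T ≤ t) (h2 : t ≤ 2 * T - Real.log T) :
    T ≤ t - ρ ∧ t + ρ ≤ 2 * T := by
  have h3 : ρ ≤ Real.log T := by
    rw [hρ, div_le_iff₀ (by linarith)]
    nlinarith
  constructor <;> linarith

end ZLowAux

open ZLowAux

theorem ZLOW_proof : ZLOW := by
  intro A c c0 e hA hc0 hcc he he1 hg
  have hRpos : 0 < Real.pi * c0 := by have := Real.pi_pos; positivity
  set R := Real.pi * c0 with hR
  refine ⟨max 10 (Real.exp (max 1 (max R (R ^ 2 / (2 * e))))), le_max_left _ _,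
    fun T hT t ht1 ht2 => ?_⟩
  have hT10 : 10 ≤ T := (le_max_left _ _).trans hT
  have hLL : max 1 (max R (R ^ 2 / (2 * e))) ≤ Real.log T := by
    rw [Real.le_log_iff_exp_le (by linarith)]
    exact (le_max_right _ _).trans hT
  simp only [max_le_iff] at hLL
  obtain ⟨hL1, hLR, hLe⟩ := hLL
  have hL0 : 0 < Real.log T := by linarith
  have hT1 : 1 ≤ T := by linarith
  have hc : 0 < c := by linarith
  obtain ⟨hw1, hw2⟩ := window_log hL1 hLR rfl ht1 ht2
  rw [NN_eq hT1 (by positivity) hw1 hw2, LG.LocAux.Zs_eq A c T t hT1, Finset.mul_sum]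
  have hsub : ∑ s ∈ (SP.ManyAux.ZZ_finite T hT1).toFinset.filter
      (fun s => t - R / Real.log T < s.im ∧ s.im ≤ t + R / Real.log T),
      (mu s : ℝ) * Real.exp (-(s.im - t) ^ 2 / 2) * gK A c (Real.log T * (s.im - t)) ≤
      ∑ s ∈ (SP.ManyAux.ZZ_finite T hT1).toFinset,
      (mu s : ℝ) * Real.exp (-(s.im - t) ^ 2 / 2) * gK A c (Real.log T * (s.im - t)) := by
    apply Finset.sum_le_sum_of_subset_of_nonneg (Finset.filter_subset _ _)
    intro s _ _
    have := (LG.gK_bounds A c (Real.log T * (s.im - t)) hA hc).1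
    positivity
  refine le_trans (Finset.sum_le_sum (fun s hs => ?_)) hsub
  rw [Finset.mem_filter] at hs
  obtain ⟨-, hs1, hs2⟩ := hs
  have hst : |s.im - t| ≤ R / Real.log T := by
    rw [abs_le]
    constructor <;> linarith
  have hx : |Real.log T * (s.im - t)| ≤ R := by
    rw [abs_mul, abs_of_pos hL0]
    rw [le_div_iff₀ hL0] at hst
    linarith
  have h2 := hg _ hx
  have h3 : 1 - e ≤ Real.exp (-(s.im - t) ^ 2 / 2) := by
    have h4 : (s.im - t) ^ 2 ≤ (R / Real.log T) ^ 2 := by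
      rw [← sq_abs (s.im - t)]
      exact pow_le_pow_left₀ (abs_nonneg _) hst 2
    have h5 : (R / Real.log T) ^ 2 ≤ 2 * e := by
      rw [div_pow, div_le_iff₀ (by positivity)]
      rw [div_le_iff₀ (by positivity)] at hLe
      nlinarith
    have h6 := Real.add_one_le_exp (-(s.im - t) ^ 2 / 2)
    linarith
  have h7 : 0 < 1 - e := by linarith
  have hmu : (0 : ℝ) ≤ (mu s : ℝ) := Nat.cast_nonneg _
  calc (1 - 2 * e) * (mu s : ℝ) ≤ (mu s : ℝ) * (1 - e) * (1 - e) := by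
        nlinarith [mul_nonneg hmu (sq_nonneg e)]
    _ ≤ (mu s : ℝ) * Real.exp (-(s.im - t) ^ 2 / 2) * gK A c (Real.log T * (s.im - t)) := by
      gcongr

theorem NZMK_proof : NZMK := by
  intro c hc
  have hRpos : 0 < Real.pi * c := by have := Real.pi_pos; positivity
  set R := Real.pi * c with hR
  refine ⟨2 * (1 + R ^ 2), max 10 (Real.exp (max 1 R)), by positivity, le_max_left _ _,
    fun T hT t ht1 ht2 => ?_⟩
  have hT10 : 10 ≤ T := (le_max_left _ _).trans hT
  have hLL : max 1 R ≤ Real.log T := by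
    rw [Real.le_log_iff_exp_le (by linarith)]
    exact (le_max_right _ _).trans hT
  simp only [max_le_iff] at hLL
  obtain ⟨hL1, hLR⟩ := hLL
  have hL0 : 0 < Real.log T := by linarith
  have hT1 : 1 ≤ T := by linarith
  obtain ⟨hw1, hw2⟩ := window_log hL1 hLR rfl ht1 ht2
  rw [NN_eq hT1 (by positivity) hw1 hw2]
  refine ⟨Finset.sum_nonneg (fun s _ => Nat.cast_nonneg _), ?_⟩
  rw [SP.ManyAux.Mk_eq T 1 t hT1, Finset.mul_sum]
  have hsub : ∑ s ∈ (SP.ManyAux.ZZ_finite T hT1).toFinset.filter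
      (fun s => t - R / Real.log T < s.im ∧ s.im ≤ t + R / Real.log T),
      2 * (1 + R ^ 2) * ((mu s : ℝ) * Real.exp (-(s.im - t) ^ 2 / 2) /
        (1 + (Real.log T * (s.im - t) / 1) ^ 2)) ≤
      ∑ s ∈ (SP.ManyAux.ZZ_finite T hT1).toFinset,
      2 * (1 + R ^ 2) * ((mu s : ℝ) * Real.exp (-(s.im - t) ^ 2 / 2) /
        (1 + (Real.log T * (s.im - t) / 1) ^ 2)) := by
    apply Finset.sum_le_sum_of_subset_of_nonneg (Finset.filter_subset _ _)
    intro s _ _
    positivity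
  refine le_trans (Finset.sum_le_sum (fun s hs => ?_)) hsub
  rw [Finset.mem_filter] at hs
  obtain ⟨-, hs1, hs2⟩ := hs
  have hst : |s.im - t| ≤ R / Real.log T := by
    rw [abs_le]
    constructor <;> linarith
  have hx : |Real.log T * (s.im - t)| ≤ R := by
    rw [abs_mul, abs_of_pos hL0]
    rw [le_div_iff₀ hL0] at hst
    linarith
  have hst1 : |s.im - t| ≤ 1 := hst.trans (by rw [div_le_iff₀ hL0]; linarith)
  have h3 : 1 / 2 ≤ Real.exp (-(s.im - t) ^ 2 / 2) := by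
    have h4 : (s.im - t) ^ 2 ≤ 1 := by
      rw [← sq_abs (s.im - t)]
      exact pow_le_one₀ (abs_nonneg _) hst1
    have h6 := Real.add_one_le_exp (-(s.im - t) ^ 2 / 2)
    linarith
  have h4 : 1 + (Real.log T * (s.im - t) / 1) ^ 2 ≤ 1 + R ^ 2 := by
    rw [div_one, ← sq_abs (Real.log T * (s.im - t))]
    have := pow_le_pow_left₀ (abs_nonneg _) hx 2
    linarith
  have hmu : (0 : ℝ) ≤ (mu s : ℝ) := Nat.cast_nonneg _
  have hden : 0 < 1 + (Real.log T * (s.im - t) / 1) ^ 2 := by positivity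
  rw [← mul_div_assoc, le_div_iff₀ hden]
  calc (mu s : ℝ) * (1 + (Real.log T * (s.im - t) / 1) ^ 2) ≤ (mu s : ℝ) * (1 + R ^ 2) := by
        gcongr
    _ = 2 * (1 + R ^ 2) * ((mu s : ℝ) * (1 / 2)) := by ring
    _ ≤ _ := by gcongr

end RGap
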